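import Pool.Agent.helper77.MC.Spec

set_option autoImplicit false

namespace Pool.Agent.helper77.MC

open Finset Numbering

theorem P1 (h1 : FA_stmt) : P1_stmt := by
  classical
  intro β _ y c m w hy hc hw hm
  obtain ⟨hA, hB, -⟩ := h1 β y c (c + 1) m m hy hc
  have hanti : IsAntichain (· ⊆ ·) (fam y c m : Set (Finset β)) := by
    intro s hs t ht hne hsub
    exact hne (hB s hs t ht hsub)
  rcases (fam y c m).eq_empty_or_nonempty with he | ⟨J0, hJ0⟩
  · rw [he]
    simpa using hw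
  have hpos : ∀ J ∈ fam y c m, (0 : ℝ) < ((Fintype.card β).choose #J : ℝ) := by
    intro J _
    have : 0 < (Fintype.card β).choose #J := Nat.choose_pos (Finset.card_le_univ J)
    exact_mod_cast this
  have hwpos : 0 < w := lt_of_lt_of_le (hpos J0 hJ0) (hm _ (hA J0 hJ0).2.1)
  have hlym : ∑ J ∈ fam y c m, (((Fintype.card β).choose #J : ℝ))⁻¹ ≤ 1 :=
    Finset.lubell_yamamoto_meshalkin_inequality_sum_inv_choose (𝕜 := ℝ) hanti
  have h2 : (#(fam y c m) : ℝ) * w⁻¹ ≤ ∑ J ∈ fam y c m, (((Fintype.card β).choose #J : ℝ))⁻¹ := by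
    rw [← nsmul_eq_mul]
    apply Finset.card_nsmul_le_sum
    intro J hJ
    exact inv_anti₀ (hpos J hJ) (hm _ (hA J hJ).2.1)
  have h3 : (#(fam y c m) : ℝ) * w⁻¹ ≤ 1 := h2.trans hlym
  calc (#(fam y c m) : ℝ) = (#(fam y c m) : ℝ) * w⁻¹ * w := by field_simp
    _ ≤ 1 * w := mul_le_mul_of_nonneg_right h3 hw
    _ = w := one_mul w

end Pool.Agent.helper77.MC
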